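import Pool.Agent.Q290.CR.Sq

/-!
# Sums `n = k + m` with three conditions on squares in Cramér's random model
-/

set_option autoImplicit false

namespace Pool.Agent.Q290.CR

open MeasureTheory Filter Pool.Agent.Q120.MF Pool.Agent.Q197.CI
open scoped Topology

/-- `n = (n - m) + m` is a decomposition as in the question, with `S` in place of the set of the primes. -/
def Sol (S : Set ℕ) (n m : ℕ) : Prop := el S (n - m) ^ 2 - 2 ∈ S ∧ el S m ^ 2 - 2 ∈ S ∧ el S (el S m) ^ 2 - 2 ∈ S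

theorem sol_iff {S : Set ℕ} (hS : S.Infinite) (n m : ℕ) :
    Sol S n m ↔ (G2 (el S (n - m)) ∈ S ∧ G2 (el S m) ∈ S ∧ G2 (el S (el S m)) ∈ S) := by
  have h1 := el_ge3 hS (n - m)
  have h2 := el_ge3 hS m
  have h3 := el_ge3 hS (el S m)
  rw [g2_of_ge (by omega), g2_of_ge (by omega), g2_of_ge (by omega)]
  rfl

theorem all_parts :
    (∃ (Ω : Type) (_ : MeasurableSpace Ω) (μ : Measure Ω) (A : Ω → Set ℕ), IsProbabilityMeasure μ ∧ IsCramer μ A) ∧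
    ∀ (Ω : Type) [MeasurableSpace Ω] (μ : Measure Ω) [IsProbabilityMeasure μ] (A : Ω → Set ℕ), IsCramer μ A →
      (∀ᵐ ω ∂μ, (A ω).Infinite ∧ ∀ᶠ n : ℕ in atTop, ∃ k m : ℕ, 1 ≤ k ∧ 1 ≤ m ∧ n = k + m ∧
        el (A ω) k ^ 2 - 2 ∈ A ω ∧ el (A ω) m ^ 2 - 2 ∈ A ω ∧ el (A ω) (el (A ω) m) ^ 2 - 2 ∈ A ω) ∧
      (∀ c : ℝ, 32 < c → ∀ᵐ ω ∂μ, ∀ᶠ n : ℕ in atTop,
        ∃ m : ℕ, 1 ≤ m ∧ (m : ℝ) ≤ c * (Real.log n ^ 2 * Real.log (Real.log n) ^ 2) ∧ Sol (A ω) n m) ∧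
      (∀ c : ℝ, 0 < c → c < 32 → ∀ᵐ ω ∂μ, Tendsto (fun N : ℕ =>
        Real.log (cntP (fun n => NoSol (Sol (A ω)) n (c * (Real.log n ^ 2 * Real.log (Real.log n) ^ 2))) N) /
          Real.log N) atTop (𝓝 (1 - c / 32))) ∧
      (∀ t : ℝ, 0 < t → ∀ᵐ ω ∂μ, Tendsto (fun N : ℕ =>
        cntP (fun n => NoSol (Sol (A ω)) n (t * (Real.log n * Real.log (Real.log n) ^ 2))) N / N) atTop
          (𝓝 (Real.exp (-(t / 8))))) := by
  refine ⟨⟨_, _, cramerMeasure, cramerSet, inferInstance, isCramer⟩, ?_⟩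
  intro Ω _ μ _ A hA
  have hSol : ∀ᵐ ω ∂μ, ∀ M : ℕ, ∀ᶠ n : ℕ in atTop, ∀ j : ℕ, 1 ≤ j → (j : ℝ) ≤ Real.log n ^ M →
      (Sol (A ω) n j ↔ (WP Pb j (A ω) ∧ ¬ FlI (fun n j => n - j) G2 n j (A ω))) := by
    filter_upwards [ae_flI hA idx_sub G2, ae_infinite hA] with ω h1 hinf M
    filter_upwards [h1 M] with n h2 j hj1 hj2
    rw [h2 j hj1 hj2, wpb hinf hj1, sol_iff hinf]
    exact ⟨fun h => ⟨h.2, h.1⟩, fun h => ⟨h.2, h.1⟩⟩
  obtain ⟨h1, h2, h3⟩ := rowB.finalK hA (show (0 : ℝ) < 1 / 4 by norm_num) 2 (lawb hA) (vb hA) Sol hSol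
  have e1 : (2 : ℝ) / (1 / 4) * (((1 : ℕ) : ℝ) + 1) ^ 2 = 32 := by norm_num
  have e2 : (2 : ℝ) / (1 / 4) * ((1 : ℕ) : ℝ) ^ 2 = 8 := by norm_num
  have hc4 : ∀ c : ℝ, 32 < c → ∀ᵐ ω ∂μ, ∀ᶠ n : ℕ in atTop,
      ∃ m : ℕ, 1 ≤ m ∧ (m : ℝ) ≤ c * (Real.log n ^ 2 * Real.log (Real.log n) ^ 2) ∧ Sol (A ω) n m := by
    intro c hc
    filter_upwards [h1 c (by rw [e1]; exact hc)] with ω h4
    filter_upwards [h4] with n h5
    unfold NoSol at h5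
    push Not at h5
    exact h5
  refine ⟨?_, hc4, fun c hc0 hc => ?_, fun t ht => ?_⟩
  · filter_upwards [ae_infinite hA, hc4 33 (by norm_num)] with ω hinf h4
    refine ⟨hinf, ?_⟩
    filter_upwards [h4, scale_le 66 2 2, eventually_ge_atTop 2] with n h5 h6 h7
    obtain ⟨m, k1, k2, k3, k4, k5⟩ := h5
    have h8 : 2 * m ≤ n := by
      have : 2 * (m : ℝ) ≤ n := by linarith
      exact_mod_cast this
    exact ⟨n - m, m, by omega, k1, by omega, k3, k4, k5⟩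
  · have h4 := h2 c hc0 (by rw [e1]; exact hc)
    rw [e1] at h4
    exact h4
  · have h4 := h3 t ht
    rw [e2] at h4
    simp only [pow_one] at h4
    exact h4

end Pool.Agent.Q290.CR
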