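import Pool.Agent.Q197.CI.RowK
import Pool.Agent.Q197.CI.C971

/-!
# Squares of elements, minus two: the tests `el m ^ 2 - 2` and `el (el m) ^ 2 - 2`
-/

set_option autoImplicit false

namespace Pool.Agent.Q290.CR

open Finset Filter MeasureTheory Pool.Agent.Q120.ET Pool.Agent.Q120.MF Pool.Agent.Q197.CI
open scoped Topology

/-- `m` is tested at `G2 b`, where `b` is the element with index `m`. -/
def Pa (m a : ℕ) (S : Set ℕ) : Prop := ∃ b, b < a ∧ IsEl S m b ∧ a = G2 b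

theorem dep_Pa (m a : ℕ) : Dep a (Pa m a) := by
  intro S S' hS
  have key : ∀ S S' : Set ℕ, (∀ j, 3 ≤ j → j < a → (j ∈ S ↔ j ∈ S')) → Pa m a S → Pa m a S' := by
    rintro S S' hS ⟨b, h1, h3, h4⟩
    have e2 : IsEl S m b = IsEl S' m b := dep_isEl h1 S S' hS
    exact ⟨b, h1, e2 ▸ h3, h4⟩
  exact propext ⟨key S S' hS, key S' S (fun j h1 h2 => (hS j h1 h2).symm)⟩

theorem pa_iff {S : Set ℕ} (hS : S.Infinite) {m : ℕ} (hm : 1 ≤ m) (a : ℕ) : Pa m a S ↔ (True ∧ a = G2 (el S m)) := by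
  have h1 := isEl_el hS hm
  unfold Pa
  constructor
  · rintro ⟨b, _, h3, h5⟩
    rw [isEl_unique h3 h1] at h5
    exact ⟨trivial, h5⟩
  · rintro ⟨_, rfl⟩
    exact ⟨_, tgt_sq.gt _ (el_ge3 hS m), h1, rfl⟩

theorem wpa {S : Set ℕ} (hS : S.Infinite) {m : ℕ} (hm : 1 ≤ m) : WP Pa m S ↔ G2 (el S m) ∈ S := by
  unfold WP
  constructor
  · rintro ⟨a, h1, h2⟩
    rw [((pa_iff hS hm a).1 h1).2] at h2
    exact h2
  · exact fun h => ⟨_, (pa_iff hS hm _).2 ⟨trivial, rfl⟩, h⟩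

/-- `m` is tested at `G2 b`, where `b` is the element with index `M` and `M` the element with index `m`, if `G2 M` is an
element. -/
def Pb (m a : ℕ) (S : Set ℕ) : Prop := ∃ M b, b < a ∧ IsEl S m M ∧ G2 M ∈ S ∧ IsEl S M b ∧ a = G2 b

theorem g2_lt {a b : ℕ} (h : a < b) : G2 a < G2 b := tgt_sq.mono h

theorem g2_ge3 {a : ℕ} (h : 3 ≤ a) : 3 ≤ G2 a := by
  have := tgt_sq.gt a h
  omega

theorem dep_Pb (m a : ℕ) : Dep a (Pb m a) := by
  intro S S' hS
  have key : ∀ S S' : Set ℕ, (∀ j, 3 ≤ j → j < a → (j ∈ S ↔ j ∈ S')) → Pb m a S → Pb m a S' := by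
    rintro S S' hS ⟨M, b, h1, h2, h3, h4, h5⟩
    have h6 := isEl_ge h4
    have e1 : IsEl S m M = IsEl S' m M := dep_isEl (show M < a by omega) S S' hS
    have e2 : IsEl S M b = IsEl S' M b := dep_isEl h1 S S' hS
    have h7 : G2 M < a := by rw [h5]; exact g2_lt (by omega)
    exact ⟨M, b, h1, e1 ▸ h2, (hS _ (g2_ge3 h2.1) h7).1 h3, e2 ▸ h4, h5⟩
  exact propext ⟨key S S' hS, key S' S (fun j h1 h2 => (hS j h1 h2).symm)⟩

theorem pb_iff {S : Set ℕ} (hS : S.Infinite) {m : ℕ} (hm : 1 ≤ m) (a : ℕ) :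
    Pb m a S ↔ (G2 (el S m) ∈ S ∧ a = G2 (el S (el S m))) := by
  have h1 := isEl_el hS hm
  have h2 := isEl_el hS (show 1 ≤ el S m by have := h1.1; omega)
  unfold Pb
  constructor
  · rintro ⟨M, b, _, h3, h4, h5, h6⟩
    have h7 := isEl_unique h3 h1
    rw [h7] at h5 h4
    rw [isEl_unique h5 h2] at h6
    exact ⟨h4, h6⟩
  · rintro ⟨h3, rfl⟩
    exact ⟨_, _, tgt_sq.gt _ (el_ge3 hS _), h1, h3, h2, rfl⟩

theorem wpb {S : Set ℕ} (hS : S.Infinite) {m : ℕ} (hm : 1 ≤ m) :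
    WP Pb m S ↔ (G2 (el S m) ∈ S ∧ G2 (el S (el S m)) ∈ S) := by
  unfold WP
  constructor
  · rintro ⟨a, h1, h2⟩
    obtain ⟨h3, h4⟩ := (pb_iff hS hm a).1 h1
    rw [h4] at h2
    exact ⟨h3, h2⟩
  · exact fun h => ⟨_, (pb_iff hS hm _).2 ⟨h.1, rfl⟩, h.2⟩

/-- All indices up to `h` are decided below `(h + 2) ^ 9`. -/
def Vb (h : ℕ) (S : Set ℕ) : Prop := ∃ M b, G2 b + 1 ≤ (h + 2) ^ 9 ∧ IsEl S h M ∧ IsEl S M b

theorem dep_Vb (h : ℕ) : Dep ((h + 2) ^ 9) (Vb h) := by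
  intro S S' hS
  have key : ∀ S S' : Set ℕ, (∀ j, 3 ≤ j → j < (h + 2) ^ 9 → (j ∈ S ↔ j ∈ S')) → Vb h S → Vb h S' := by
    rintro S S' hS ⟨M, b, h1, h2, h3⟩
    have h5 := isEl_ge h3
    have h6 := tgt_sq.gt b h3.1
    have e1 : IsEl S h M = IsEl S' h M := dep_isEl (show M < (h + 2) ^ 9 by omega) S S' hS
    have e2 : IsEl S M b = IsEl S' M b := dep_isEl (show b < (h + 2) ^ 9 by omega) S S' hS
    exact ⟨M, b, h1, e1 ▸ h2, e2 ▸ h3⟩
  exact propext ⟨key S S' hS, key S' S (fun j h1 h2 => (hS j h1 h2).symm)⟩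

theorem depWb (h : ℕ) (S S' : Set ℕ) (hV : Vb h S) (hS : ∀ j, 3 ≤ j → j < (h + 2) ^ 9 → (j ∈ S ↔ j ∈ S')) :
    ∀ j, 1 ≤ j → j ≤ h → (WP Pb j S ↔ WP Pb j S') := by
  have hV' : Vb h S' := by
    have e : Vb h S = Vb h S' := dep_Vb h S S' hS
    exact e ▸ hV
  have key : ∀ S S' : Set ℕ, Vb h S → (∀ j, 3 ≤ j → j < (h + 2) ^ 9 → (j ∈ S ↔ j ∈ S')) →
      ∀ j, 1 ≤ j → j ≤ h → WP Pb j S → WP Pb j S' := by
    rintro S S' ⟨Mh, bh, h1, h2, h3⟩ hS j hj1 hj2 ⟨a, ⟨M, b, h4, h5, h5', h6, h7⟩, h8⟩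
    have hM : M ≤ Mh := by
      rcases Nat.lt_or_ge j h with h9 | h9
      · exact (isEl_lt h5 h2 h9).le
      · have : j = h := by omega
        rw [this] at h5
        exact (isEl_unique h5 h2).le
    have hb : b ≤ bh := by
      rcases Nat.lt_or_ge M Mh with h9 | h9
      · exact (isEl_lt h6 h3 h9).le
      · have : M = Mh := by omega
        rw [this] at h6
        exact (isEl_unique h6 h3).le
    have h9 := isEl_ge h6
    have h10 := h6.1
    have h11 := tgt_sq.gt b h10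
    have h12 : G2 b ≤ G2 bh := tgt_sq.mono.monotone hb
    have h13 : G2 M < G2 b := g2_lt (by omega)
    have h14 := h5.1
    have h15 := g2_ge3 h14
    have e1 : IsEl S j M = IsEl S' j M := dep_isEl (show M < (h + 2) ^ 9 by omega) S S' hS
    have e2 : IsEl S M b = IsEl S' M b := dep_isEl (show b < (h + 2) ^ 9 by omega) S S' hS
    exact ⟨a, ⟨M, b, h4, e1 ▸ h5, (hS _ h15 (by omega)).1 h5', e2 ▸ h6, h7⟩, (hS a (by omega) (by omega)).1 h8⟩
  intro j hj1 hj2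
  exact ⟨key S S' hV hS j hj1 hj2, key S' S hV' (fun j h1 h2 => (hS j h1 h2).symm) j hj1 hj2⟩

theorem rowB : Row (WP Pb) Vb (fun h => (h + 2) ^ 9) (FlI (fun n j => n - j) G2) XI
    (qI (fun n j => n - j) G2) 1 2 := by
  refine rowI tgt_sq idx_sub dep_Vb depWb (fun h => ?_) (fun a b hab => ?_) ⟨9, fun h => ?_⟩
  · have : 2 ^ 9 ≤ (h + 2) ^ 9 := Nat.pow_le_pow_left (by omega) 9
    omega
  · exact Nat.pow_le_pow_left (by omega) 9
  · push_cast
    exact le_rfl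

variable {Ω : Type*} [MeasurableSpace Ω] {μ : Measure Ω} [IsProbabilityMeasure μ] {A : Ω → Set ℕ}

theorem g2_le (a : ℕ) (ha : 3 ≤ a) : G2 a + 2 = a ^ 2 := by
  rw [g2_of_ge (by omega)]
  have : 3 ^ 2 ≤ a ^ 2 := Nat.pow_le_pow_left ha 2
  omega

/-- Twice iterated indices stay small. -/
theorem ae_bd (hA : IsCramer μ A) : ∀ᵐ ω ∂μ, ∀ᶠ h in atTop, el (A ω) h ≤ h ^ 2 ∧
    G2 (el (A ω) (el (A ω) h)) + 1 ≤ (h + 2) ^ 9 ∧
    (∀ m, 1 ≤ m → m ≤ h → G2 (el (A ω) (el (A ω) m)) < (h + 2) ^ 9 ∧ G2 (el (A ω) m) < (h + 2) ^ 9) := by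
  filter_upwards [ae_el hA] with ω h1
  obtain ⟨hinf, h1⟩ := h1
  obtain ⟨m0, hm0⟩ := eventually_atTop.1 h1
  filter_upwards [eventually_ge_atTop (m0 + 2)] with h hh
  have h2 := (hm0 h (by omega)).2.2
  have h3 := el_ge hinf (show 1 ≤ h by omega)
  have h4 := (hm0 (el (A ω) h) (by omega)).2.2
  have h5 : el (A ω) (el (A ω) h) ≤ h ^ 4 := h4.trans (by
    calc el (A ω) h ^ 2 ≤ (h ^ 2) ^ 2 := Nat.pow_le_pow_left h2 2
      _ = h ^ 4 := by ring)
  have h5' : G2 (el (A ω) (el (A ω) h)) + 2 ≤ h ^ 8 := by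
    rw [g2_le _ (el_ge3 hinf _)]
    calc el (A ω) (el (A ω) h) ^ 2 ≤ (h ^ 4) ^ 2 := Nat.pow_le_pow_left h5 2
      _ = h ^ 8 := by ring
  have h6 : h ^ 8 ≤ (h + 2) ^ 9 := by
    calc h ^ 8 ≤ (h + 2) ^ 8 := Nat.pow_le_pow_left (by omega) 8
      _ ≤ (h + 2) ^ 9 := Nat.pow_le_pow_right (by omega) (by norm_num)
  refine ⟨h2, by omega, fun m hm1 hm2 => ?_⟩
  have h7 := el_mono' hinf hm1 hm2
  have h8 := el_mono' hinf (show 1 ≤ el (A ω) m by have := el_ge hinf hm1; omega) h7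
  have h9 : G2 (el (A ω) (el (A ω) m)) ≤ G2 (el (A ω) (el (A ω) h)) := tgt_sq.mono.monotone h8
  have h10 : G2 (el (A ω) m) < G2 (el (A ω) (el (A ω) m)) := by
    refine g2_lt ?_
    have := el_ge hinf (show 1 ≤ el (A ω) m by have := el_ge hinf hm1; omega)
    omega
  omega

theorem log_g2_el {S : Set ℕ} (hS : S.Infinite) (h : Tendsto (fun m : ℕ => Real.log (el S m) / Real.log m) atTop (𝓝 1)) :
    Tendsto (fun m : ℕ => Real.log (G2 (el S m)) / Real.log m) atTop (𝓝 2) := by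
  have h6 := (log_g2.comp (el_top hS)).mul h
  rw [mul_one] at h6
  refine h6.congr' ?_
  filter_upwards [eventually_ge_atTop 1] with m hm
  simp only [Function.comp_apply]
  have h7 : 0 < Real.log (el S m : ℝ) := Real.log_pos (by exact_mod_cast (show 1 < el S m by have := el_ge3 hS m; omega))
  field_simp

theorem log_g2_el2 {S : Set ℕ} (hS : S.Infinite) (h : Tendsto (fun m : ℕ => Real.log (el S m) / Real.log m) atTop (𝓝 1)) :
    Tendsto (fun m : ℕ => Real.log (G2 (el S (el S m))) / Real.log m) atTop (𝓝 2) := by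
  have h6 := ((log_g2_el hS h).comp (el_top hS)).mul h
  rw [mul_one] at h6
  refine h6.congr' ?_
  filter_upwards [eventually_ge_atTop 1] with m hm
  simp only [Function.comp_apply]
  have h7 : 0 < Real.log (el S m : ℝ) := Real.log_pos (by exact_mod_cast (show 1 < el S m by have := el_ge3 hS m; omega))
  field_simp

theorem el_inj {S : Set ℕ} (hS : S.Infinite) {m m' : ℕ} (hm : 1 ≤ m) (hm' : 1 ≤ m') (h : el S m = el S m') : m = m' := by
  rcases lt_trichotomy m m' with h4 | h4 | h4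
  · have := el_lt_el hS hm h4
    omega
  · exact h4
  · have := el_lt_el hS hm' h4
    omega

/-- The number of the `m ≤ h` with `el m ^ 2 - 2` an element. -/
theorem lawa (hA : IsCramer μ A) :
    ∀ᵐ ω ∂μ, Tendsto (fun h : ℕ => ((Ws (WP Pa) (A ω) h).card : ℝ) * Real.log h ^ 1 / h) atTop (𝓝 (1 / 2)) := by
  classical
  refine pos_law hA dep_Pa (fun h => (h + 2) ^ 9) 1 (by norm_num) ?_
  filter_upwards [ae_infinite hA, ae_bd hA, ae_log_el hA] with ω hinf h1 h2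
  refine ⟨fun _ => True, fun m => G2 (el (A ω) m), fun m a hm => pa_iff hinf hm a, fun m hm _ => g2_ge3 (el_ge3 hinf m),
    fun m m' hm hm' _ _ h => el_inj hinf hm hm' (tgt_sq.mono.injective h), ?_, ?_⟩
  · filter_upwards [h1] with h h3 m hm1 hm2
    exact (h3.2.2 m hm1 hm2).2
  · have h3 := sum_pb_law (t := fun m => G2 (el (A ω) m)) (by norm_num) (log_g2_el hinf h2)
    refine h3.congr (fun h => ?_)
    rw [pow_one]
    congr 2
    refine sum_congr ?_ (fun _ _ => rfl)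
    ext j
    simp

theorem cDa {S : Set ℕ} (hS : S.Infinite) (h : ℕ) : cD (fun m => G2 (el S m) ∈ S) h = ((Ws (WP Pa) S h).card : ℝ) := by
  classical
  unfold cD Ws
  congr 2
  ext k
  simp only [mem_filter, mem_Icc]
  constructor
  · rintro ⟨h2, h3⟩
    exact ⟨h2, (wpa hS h2.1).2 h3⟩
  · rintro ⟨h2, h3⟩
    exact ⟨h2, (wpa hS h2.1).1 h3⟩

/-- The number of the `m ≤ h` with `el m ^ 2 - 2` and `el (el m) ^ 2 - 2` elements. -/
theorem lawb (hA : IsCramer μ A) :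
    ∀ᵐ ω ∂μ, Tendsto (fun h : ℕ => ((Ws (WP Pb) (A ω) h).card : ℝ) * Real.log h ^ 2 / h) atTop (𝓝 (1 / 4)) := by
  classical
  refine pos_law hA dep_Pb (fun h => (h + 2) ^ 9) 2 (by norm_num) ?_
  filter_upwards [ae_infinite hA, ae_bd hA, ae_log_el hA, lawa hA] with ω hinf h1 h2 hla
  refine ⟨fun m => G2 (el (A ω) m) ∈ A ω, fun m => G2 (el (A ω) (el (A ω) m)), fun m a hm => pb_iff hinf hm a,
    fun m hm _ => g2_ge3 (el_ge3 hinf _), fun m m' hm hm' _ _ h => ?_, ?_, ?_⟩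
  · have g1 := el_ge hinf hm
    have g2 := el_ge hinf hm'
    exact el_inj hinf hm hm' (el_inj hinf (by omega) (by omega) (tgt_sq.mono.injective h))
  · filter_upwards [h1] with h h3 m hm1 hm2
    exact (h3.2.2 m hm1 hm2).1
  · have hcD : Tendsto (fun h : ℕ => cD (fun m => G2 (el (A ω) m) ∈ A ω) h * Real.log h ^ 1 / h) atTop (𝓝 (1 / 2)) := by
      refine hla.congr (fun h => ?_)
      rw [cDa hinf]
    have hw : Tendsto (fun k : ℕ => pb (G2 (el (A ω) (el (A ω) k))) * Real.log k) atTop (𝓝 (1 / 2)) := by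
      have h3 := (log_g2_el2 hinf h2).inv₀ two_ne_zero
      rw [← one_div] at h3
      refine h3.congr (fun k => ?_)
      unfold pb
      rw [inv_div, one_div_mul_eq_div]
    have h3 := wsum (D := fun m => G2 (el (A ω) m) ∈ A ω) (w := fun k => pb (G2 (el (A ω) (el (A ω) k)))) (a := 1) hcD
      (B := pb 3) (fun k => (pb_pos (g2_ge3 (el_ge3 hinf _))).le) (fun k => pb_anti le_rfl (g2_ge3 (el_ge3 hinf _)))
      (by norm_num) hw
    have e : (1 : ℝ) / 2 * (1 / 2) = 1 / 4 := by norm_num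
    rw [e] at h3
    exact h3

theorem vb (hA : IsCramer μ A) : ∀ᵐ ω ∂μ, ∀ᶠ h in atTop, Vb h (A ω) := by
  filter_upwards [ae_infinite hA, ae_bd hA] with ω hinf h1
  filter_upwards [h1, eventually_ge_atTop 1] with h h2 h3
  have h4 := isEl_el hinf h3
  exact ⟨_, _, h2.2.1, h4, isEl_el hinf (by have := h4.1; omega)⟩

end Pool.Agent.Q290.CR
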