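import Pool.Agent.Q197.CI.AsN

/-!
# Sums of uniform weights, and an almost sure upper bound for the number of successes
-/

set_option autoImplicit false

namespace Pool.Agent.Q290.CR

open Finset Filter MeasureTheory Pool.Agent.Q120.ET Pool.Agent.Q120.MF Pool.Agent.Q197.CI
open scoped Topology

theorem cD_mono {P Q : ℕ → Prop} {n : ℕ} (h : ∀ m, 1 ≤ m → m ≤ n → P m → Q m) : cD P n ≤ cD Q n := by
  classical
  unfold cD
  have h1 : (Icc 1 n).filter P ⊆ (Icc 1 n).filter Q := by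
    intro m hm
    rw [mem_filter, mem_Icc] at hm ⊢
    exact ⟨hm.1, h m hm.1.1 hm.1.2 hm.2⟩
  exact_mod_cast card_le_card h1

theorem cD_congr {P Q : ℕ → Prop} {n : ℕ} (h : ∀ m, 1 ≤ m → m ≤ n → (P m ↔ Q m)) : cD P n = cD Q n :=
  le_antisymm (cD_mono fun m h1 h2 h3 => (h m h1 h2).1 h3) (cD_mono fun m h1 h2 h3 => (h m h1 h2).2 h3)

theorem cD_nonneg (P : ℕ → Prop) (n : ℕ) : 0 ≤ cD P n := Nat.cast_nonneg _

theorem cD_le (P : ℕ → Prop) (n : ℕ) : cD P n ≤ n := by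
  classical
  unfold cD
  have := card_le_card (filter_subset P (Icc 1 n))
  rw [Nat.card_Icc, Nat.add_sub_cancel] at this
  exact_mod_cast this

theorem cD_split {P Q R : ℕ → Prop} {n : ℕ} (h : ∀ m, 1 ≤ m → m ≤ n → (P m ↔ (Q m ∨ R m)))
    (hd : ∀ m, 1 ≤ m → m ≤ n → Q m → ¬ R m) : cD P n = cD Q n + cD R n := by
  classical
  unfold cD
  rw [← Nat.cast_add, ← card_union_of_disjoint]
  · congr 2
    ext m
    simp only [mem_filter, mem_union, mem_Icc]
    constructor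
    · rintro ⟨h1, h2⟩
      rcases (h m h1.1 h1.2).1 h2 with h3 | h3
      · exact Or.inl ⟨h1, h3⟩
      · exact Or.inr ⟨h1, h3⟩
    · rintro (⟨h1, h2⟩ | ⟨h1, h2⟩)
      · exact ⟨h1, (h m h1.1 h1.2).2 (Or.inl h2)⟩
      · exact ⟨h1, (h m h1.1 h1.2).2 (Or.inr h2)⟩
  · rw [disjoint_left]
    intro m h1 h2
    rw [mem_filter, mem_Icc] at h1 h2
    exact hd m h1.1.1 h1.1.2 h1.2 h2.2

theorem cD_le_one {P : ℕ → Prop} {n : ℕ} (h : ∀ m m', 1 ≤ m → 1 ≤ m' → P m → P m' → m = m') : cD P n ≤ 1 := by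
  classical
  unfold cD
  have h1 : ((Icc 1 n).filter P).card ≤ 1 := by
    rw [card_le_one]
    intro m hm m' hm'
    rw [mem_filter, mem_Icc] at hm hm'
    exact h m m' hm.1.1 hm'.1.1 hm.2 hm'.2
  exact_mod_cast h1

theorem cD_reflect (P : ℕ → Prop) (n : ℕ) : cD (fun m => m < n ∧ P (n - m)) n = cD (fun m => m < n ∧ P m) n := by
  classical
  unfold cD
  congr 1
  refine card_nbij' (fun m => n - m) (fun m => n - m) ?_ ?_ ?_ ?_
  · intro m hm
    simp only [coe_filter, Set.mem_ofPred_eq, mem_Icc] at hm ⊢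
    refine ⟨⟨by omega, by omega⟩, by omega, hm.2.2⟩
  · intro m hm
    simp only [coe_filter, Set.mem_ofPred_eq, mem_Icc] at hm ⊢
    refine ⟨⟨by omega, by omega⟩, by omega, ?_⟩
    rw [show n - (n - m) = m by omega]
    exact hm.2.2
  · intro m hm
    simp only [coe_filter, Set.mem_ofPred_eq, mem_Icc] at hm
    show n - (n - m) = m
    omega
  · intro m hm
    simp only [coe_filter, Set.mem_ofPred_eq, mem_Icc] at hm
    show n - (n - m) = m
    omega

open Classical in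
/-- Sums of nearly constant weights over sets which depend on `n`. -/
theorem usum {D : ℕ → ℕ → Prop} {w : ℕ → ℕ → ℝ} {a : ℕ} {κ κ' : ℝ}
    (hD : Tendsto (fun n : ℕ => cD (D n) n * Real.log n ^ a / n) atTop (𝓝 κ'))
    (hw : ∀ δ : ℝ, 0 < δ → ∀ᶠ n : ℕ in atTop, ∀ m, 1 ≤ m → m ≤ n → D n m → |w n m * Real.log n - κ| ≤ δ) :
    Tendsto (fun n : ℕ => (∑ m ∈ (Icc 1 n).filter (D n), w n m) * Real.log n ^ (a + 1) / n) atTop (𝓝 (κ' * κ)) := by
  obtain ⟨c, hc⟩ : ∃ c : ℕ → ℝ, c = fun n : ℕ => (((Icc 1 n).filter (D n)).card : ℝ) * Real.log n ^ a / n := ⟨_, rfl⟩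
  unfold cD at hD
  rw [← hc] at hD
  have h1 : ∀ n : ℕ, (∑ m ∈ (Icc 1 n).filter (D n), w n m) * Real.log n ^ (a + 1) / n = c n * κ +
      (∑ m ∈ (Icc 1 n).filter (D n), (w n m * Real.log n - κ)) * Real.log n ^ a / n := by
    intro n
    rw [sum_sub_distrib, sum_const, nsmul_eq_mul, ← sum_mul, hc]
    ring
  have h2 : Tendsto (fun n : ℕ => (∑ m ∈ (Icc 1 n).filter (D n), (w n m * Real.log n - κ)) * Real.log n ^ a / n)
      atTop (𝓝 0) := by
    rw [Metric.tendsto_atTop]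
    intro ε hε
    have hpos : 0 < |κ'| + 1 := by positivity
    have h3 := hD.abs.eventually_lt_const (show |κ'| < |κ'| + 1 by linarith)
    obtain ⟨N, hN⟩ := eventually_atTop.1 (h3.and (hw (ε / (2 * (|κ'| + 1))) (by positivity)))
    refine ⟨N, fun n hn => ?_⟩
    obtain ⟨h4, h5⟩ := hN n hn
    rw [Real.dist_eq, sub_zero]
    have hlog : 0 ≤ Real.log (n : ℝ) := Real.log_natCast_nonneg n
    have h6 : |∑ m ∈ (Icc 1 n).filter (D n), (w n m * Real.log n - κ)| ≤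
        (((Icc 1 n).filter (D n)).card : ℝ) * (ε / (2 * (|κ'| + 1))) := by
      refine (abs_sum_le_sum_abs _ _).trans ?_
      rw [← nsmul_eq_mul]
      refine sum_le_card_nsmul _ _ _ (fun m hm => ?_)
      rw [mem_filter, mem_Icc] at hm
      exact h5 m hm.1.1 hm.1.2 hm.2
    have h7 : |(∑ m ∈ (Icc 1 n).filter (D n), (w n m * Real.log n - κ)) * Real.log n ^ a / n| ≤
        |c n| * (ε / (2 * (|κ'| + 1))) := by
      rw [hc, abs_div, abs_mul, abs_of_nonneg (show (0 : ℝ) ≤ n from Nat.cast_nonneg n),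
        abs_of_nonneg (pow_nonneg hlog a)]
      simp only
      rw [abs_of_nonneg (show 0 ≤ (((Icc 1 n).filter (D n)).card : ℝ) * Real.log n ^ a / n by positivity)]
      calc |∑ m ∈ (Icc 1 n).filter (D n), (w n m * Real.log n - κ)| * Real.log n ^ a / n
          ≤ ((((Icc 1 n).filter (D n)).card : ℝ) * (ε / (2 * (|κ'| + 1)))) * Real.log n ^ a / n := by gcongr
        _ = _ := by ring
    refine lt_of_le_of_lt h7 ?_
    have h8 : |c n| * (ε / (2 * (|κ'| + 1))) ≤ (|κ'| + 1) * (ε / (2 * (|κ'| + 1))) := by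
      exact mul_le_mul_of_nonneg_right h4.le (by positivity)
    have h9 : (|κ'| + 1) * (ε / (2 * (|κ'| + 1))) = ε / 2 := by field_simp
    linarith
  have h3 := (hD.mul_const κ).add h2
  rw [add_zero] at h3
  exact h3.congr (fun n => (h1 n).symm)

variable {Ω : Type*} [MeasurableSpace Ω] {μ : Measure Ω} [IsProbabilityMeasure μ] {A : Ω → Set ℕ}

/-- Chernoff's upper bound, almost surely. -/
theorem chern_up (hA : IsCramer μ A) (H : ℕ → ℕ → Set ℕ → Prop) (hH : ∀ n a, 3 ≤ a → Dep a (H n a)) (x : ℕ → ℕ)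
    (F : ℕ → ℝ) (hF : Tendsto (fun n : ℕ => F n / Real.log n) atTop atTop)
    (hlam : ∀ᵐ ω ∂μ, ∀ᶠ n in atTop, lam 3 (x n) (H n) (A ω) ≤ F n) :
    ∀ᵐ ω ∂μ, ∀ᶠ n in atTop, (hits 3 (x n) (H n) (A ω) : ℝ) ≤ 2 * F n := by
  have hT0 : ∀ j ∈ (∅ : Finset ℕ), j < 3 := by simp
  have h1 := bc (μ := μ) (E := fun n => {ω | lam 3 (x n) (H n) (A ω) ≤ F n ∧ 2 * F n ≤ hits 3 (x n) (H n) (A ω)})
    (f := fun n : ℕ => (n : ℝ) ^ (-2 : ℝ)) ?_ (Real.summable_nat_rpow.2 (by norm_num))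
  · filter_upwards [h1, hlam] with ω h2 h3
    filter_upwards [h2, h3] with n h4 h5
    by_contra hcon
    push Not at hcon
    exact h4 ⟨h5, hcon.le⟩
  · filter_upwards [hF.eventually_ge_atTop 8, hl.eventually_gt_atTop 0, eventually_ge_atTop 1] with n h1 h2 h3
    have hn0 : (0 : ℝ) < n := by exact_mod_cast h3
    rw [le_div_iff₀ h2] at h1
    have hF0 : 0 ≤ F n := le_trans (by positivity) h1
    have hdep : Dep (x n) (fun S => lam 3 (x n) (H n) S ≤ F n ∧ 2 * F n ≤ hits 3 (x n) (H n) S) := by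
      intro S S' hS
      have e1 : lam 3 (x n) (H n) S = lam 3 (x n) (H n) S' := dep_lam (hH n) S S' hS
      have e2 : hits 3 (x n) (H n) S = hits 3 (x n) (H n) S' := dep_hits (hH n) S S' hS
      simp only [e1, e2]
    rw [real_eq_pr hA hdep]
    refine (tail_up le_rfl hT0 (H n) (hH n) (x n) (η := 1) (by norm_num) (by norm_num) hF0 (by linarith)).trans ?_
    rw [Real.rpow_def_of_pos hn0, Real.exp_le_exp]
    nlinarith

end Pool.Agent.Q290.CR
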