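import Pool.Agent.Q290.CR.Sol
import Pool.Agent.Q290.CR.Up
import Pool.Agent.Q197.CI.FixP

/-!
# The number of all representations `n = k + m`
-/

set_option autoImplicit false

namespace Pool.Agent.Q290.CR

open Finset Filter MeasureTheory Pool.Agent.Q120.ET Pool.Agent.Q120.MF Pool.Agent.Q197.CI
open scoped Topology

/-! ## The four families of tests -/

/-- Pairs with the larger index `m`. -/
def P1 (n m a : ℕ) (S : Set ℕ) : Prop :=
  n < 2 * m ∧ m < n ∧ ∃ b b', b < a ∧ IsEl S (n - m) b' ∧ G2 b' ∈ S ∧ IsEl S m b ∧ a = G2 b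

/-- Pairs with `el m ≤ n - m`. -/
def P2 (n m a : ℕ) (S : Set ℕ) : Prop :=
  m < n ∧ ∃ M b, b < a ∧ IsEl S m M ∧ M ≤ n - m ∧ G2 M ∈ S ∧ IsEl S (n - m) b ∧ a = G2 b

/-- Triples with `el m < n - m`. -/
def P3 (n m a : ℕ) (S : Set ℕ) : Prop :=
  m < n ∧ ∃ M b b', b < a ∧ IsEl S m M ∧ M < n - m ∧ G2 M ∈ S ∧ IsEl S M b' ∧ G2 b' ∈ S ∧ IsEl S (n - m) b ∧ a = G2 b

/-- Triples with `n - m < el m`. -/
def P4 (n m a : ℕ) (S : Set ℕ) : Prop :=
  m < n ∧ ∃ M b b', b < a ∧ IsEl S m M ∧ n - m < M ∧ G2 M ∈ S ∧ IsEl S (n - m) b' ∧ G2 b' ∈ S ∧ IsEl S M b ∧ a = G2 b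

theorem dep_P1 (n m a : ℕ) : Dep a (P1 n m a) := by
  intro S S' hS
  have key : ∀ S S' : Set ℕ, (∀ j, 3 ≤ j → j < a → (j ∈ S ↔ j ∈ S')) → P1 n m a S → P1 n m a S' := by
    rintro S S' hS ⟨h1, h2, b, b', h3, h4, h5, h6, h7⟩
    have h8 := isEl_lt h4 h6 (show n - m < m by omega)
    have e1 : IsEl S (n - m) b' = IsEl S' (n - m) b' := dep_isEl (show b' < a by omega) S S' hS
    have e2 : IsEl S m b = IsEl S' m b := dep_isEl h3 S S' hS
    have h9 : G2 b' < a := by rw [h7]; exact g2_lt h8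
    exact ⟨h1, h2, b, b', h3, e1 ▸ h4, (hS _ (g2_ge3 h4.1) h9).1 h5, e2 ▸ h6, h7⟩
  exact propext ⟨key S S' hS, key S' S (fun j h1 h2 => (hS j h1 h2).symm)⟩

theorem dep_P2 (n m a : ℕ) : Dep a (P2 n m a) := by
  intro S S' hS
  have key : ∀ S S' : Set ℕ, (∀ j, 3 ≤ j → j < a → (j ∈ S ↔ j ∈ S')) → P2 n m a S → P2 n m a S' := by
    rintro S S' hS ⟨h1, M, b, h3, h4, h5, h6, h7, h8⟩
    have h9 := isEl_ge h7
    have e1 : IsEl S m M = IsEl S' m M := dep_isEl (show M < a by omega) S S' hS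
    have e2 : IsEl S (n - m) b = IsEl S' (n - m) b := dep_isEl h3 S S' hS
    have h10 : G2 M < a := by rw [h8]; exact g2_lt (by omega)
    exact ⟨h1, M, b, h3, e1 ▸ h4, h5, (hS _ (g2_ge3 h4.1) h10).1 h6, e2 ▸ h7, h8⟩
  exact propext ⟨key S S' hS, key S' S (fun j h1 h2 => (hS j h1 h2).symm)⟩

theorem dep_P3 (n m a : ℕ) : Dep a (P3 n m a) := by
  intro S S' hS
  have key : ∀ S S' : Set ℕ, (∀ j, 3 ≤ j → j < a → (j ∈ S ↔ j ∈ S')) → P3 n m a S → P3 n m a S' := by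
    rintro S S' hS ⟨h1, M, b, b', h3, h4, h5, h6, h6a, h6b, h7, h8⟩
    have h9 := isEl_ge h6a
    have h9' := isEl_lt h6a h7 h5
    have e1 : IsEl S m M = IsEl S' m M := dep_isEl (show M < a by omega) S S' hS
    have e2 : IsEl S (n - m) b = IsEl S' (n - m) b := dep_isEl h3 S S' hS
    have e3 : IsEl S M b' = IsEl S' M b' := dep_isEl (show b' < a by omega) S S' hS
    have h10 : G2 M < a := by rw [h8]; exact g2_lt (by omega)
    have h11 : G2 b' < a := by rw [h8]; exact g2_lt h9'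
    exact ⟨h1, M, b, b', h3, e1 ▸ h4, h5, (hS _ (g2_ge3 h4.1) h10).1 h6, e3 ▸ h6a, (hS _ (g2_ge3 h6a.1) h11).1 h6b,
      e2 ▸ h7, h8⟩
  exact propext ⟨key S S' hS, key S' S (fun j h1 h2 => (hS j h1 h2).symm)⟩

theorem dep_P4 (n m a : ℕ) : Dep a (P4 n m a) := by
  intro S S' hS
  have key : ∀ S S' : Set ℕ, (∀ j, 3 ≤ j → j < a → (j ∈ S ↔ j ∈ S')) → P4 n m a S → P4 n m a S' := by
    rintro S S' hS ⟨h1, M, b, b', h3, h4, h5, h6, h6a, h6b, h7, h8⟩
    have h9 := isEl_ge h7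
    have h9' := isEl_lt h6a h7 h5
    have e1 : IsEl S m M = IsEl S' m M := dep_isEl (show M < a by omega) S S' hS
    have e2 : IsEl S M b = IsEl S' M b := dep_isEl h3 S S' hS
    have e3 : IsEl S (n - m) b' = IsEl S' (n - m) b' := dep_isEl (show b' < a by omega) S S' hS
    have h10 : G2 M < a := by rw [h8]; exact g2_lt (by omega)
    have h11 : G2 b' < a := by rw [h8]; exact g2_lt h9'
    exact ⟨h1, M, b, b', h3, e1 ▸ h4, h5, (hS _ (g2_ge3 h4.1) h10).1 h6, e3 ▸ h6a, (hS _ (g2_ge3 h6a.1) h11).1 h6b,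
      e2 ▸ h7, h8⟩
  exact propext ⟨key S S' hS, key S' S (fun j h1 h2 => (hS j h1 h2).symm)⟩

section iffs

variable {S : Set ℕ} (hS : S.Infinite)
include hS

theorem p1_iff (n : ℕ) {m : ℕ} (hm : 1 ≤ m) (a : ℕ) :
    P1 n m a S ↔ ((n < 2 * m ∧ m < n ∧ G2 (el S (n - m)) ∈ S) ∧ a = G2 (el S m)) := by
  unfold P1
  constructor
  · rintro ⟨h1, h2, b, b', h3, h4, h5, h6, h7⟩
    rw [isEl_unique h4 (isEl_el hS (by omega))] at h5
    rw [isEl_unique h6 (isEl_el hS hm)] at h7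
    exact ⟨⟨h1, h2, h5⟩, h7⟩
  · rintro ⟨⟨h1, h2, h3⟩, rfl⟩
    exact ⟨h1, h2, _, _, tgt_sq.gt _ (el_ge3 hS _), isEl_el hS (by omega), h3, isEl_el hS hm, rfl⟩

theorem p2_iff (n : ℕ) {m : ℕ} (hm : 1 ≤ m) (a : ℕ) :
    P2 n m a S ↔ ((m < n ∧ el S m ≤ n - m ∧ G2 (el S m) ∈ S) ∧ a = G2 (el S (n - m))) := by
  unfold P2
  constructor
  · rintro ⟨h2, M, b, h3, h4, h5, h6, h7, h8⟩
    rw [isEl_unique h4 (isEl_el hS hm)] at h5 h6
    rw [isEl_unique h7 (isEl_el hS (by omega))] at h8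
    exact ⟨⟨h2, h5, h6⟩, h8⟩
  · rintro ⟨⟨h1, h2, h3⟩, rfl⟩
    exact ⟨h1, _, _, tgt_sq.gt _ (el_ge3 hS _), isEl_el hS hm, h2, h3, isEl_el hS (by omega), rfl⟩

theorem p3_iff (n : ℕ) {m : ℕ} (hm : 1 ≤ m) (a : ℕ) :
    P3 n m a S ↔ ((m < n ∧ el S m < n - m ∧ G2 (el S m) ∈ S ∧ G2 (el S (el S m)) ∈ S) ∧ a = G2 (el S (n - m))) := by
  have h0 := el_ge3 hS m
  unfold P3
  constructor
  · rintro ⟨h2, M, b, b', h3, h4, h5, h6, h6a, h6b, h7, h8⟩
    have e1 := isEl_unique h4 (isEl_el hS hm)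
    rw [e1] at h5 h6 h6a
    rw [isEl_unique h6a (isEl_el hS (by omega))] at h6b
    rw [isEl_unique h7 (isEl_el hS (by omega))] at h8
    exact ⟨⟨h2, h5, h6, h6b⟩, h8⟩
  · rintro ⟨⟨h1, h2, h3, h4⟩, rfl⟩
    exact ⟨h1, _, _, _, tgt_sq.gt _ (el_ge3 hS _), isEl_el hS hm, h2, h3, isEl_el hS (by omega), h4,
      isEl_el hS (by omega), rfl⟩

theorem p4_iff (n : ℕ) {m : ℕ} (hm : 1 ≤ m) (a : ℕ) :
    P4 n m a S ↔ ((m < n ∧ n - m < el S m ∧ G2 (el S m) ∈ S ∧ G2 (el S (n - m)) ∈ S) ∧ a = G2 (el S (el S m))) := by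
  have h0 := el_ge3 hS m
  unfold P4
  constructor
  · rintro ⟨h2, M, b, b', h3, h4, h5, h6, h6a, h6b, h7, h8⟩
    have e1 := isEl_unique h4 (isEl_el hS hm)
    rw [e1] at h5 h6 h7
    rw [isEl_unique h6a (isEl_el hS (by omega))] at h6b
    rw [isEl_unique h7 (isEl_el hS (by omega))] at h8
    exact ⟨⟨h2, h5, h6, h6b⟩, h8⟩
  · rintro ⟨⟨h1, h2, h3, h4⟩, rfl⟩
    exact ⟨h1, _, _, _, tgt_sq.gt _ (el_ge3 hS _), isEl_el hS hm, h2, h3, isEl_el hS (by omega), h4,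
      isEl_el hS (by omega), rfl⟩

end iffs

/-- The successes of a family of tests. -/
theorem wp_of_iff {Pos : ℕ → ℕ → Set ℕ → Prop} {S : Set ℕ} {D : Prop} {e m : ℕ} (h : ∀ a, Pos m a S ↔ (D ∧ a = e)) :
    WP Pos m S ↔ (D ∧ e ∈ S) := by
  unfold WP
  constructor
  · rintro ⟨a, h1, h2⟩
    obtain ⟨h3, h4⟩ := (h a).1 h1
    rw [h4] at h2
    exact ⟨h3, h2⟩
  · exact fun h1 => ⟨e, (h e).2 ⟨h1.1, rfl⟩, h1.2⟩

theorem ws_cD {Pos : ℕ → ℕ → Set ℕ → Prop} {S : Set ℕ} {D : ℕ → Prop} {e : ℕ → ℕ} {n : ℕ}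
    (h : ∀ m a, 1 ≤ m → (Pos m a S ↔ (D m ∧ a = e m))) :
    ((Ws (WP Pos) S n).card : ℝ) = cD (fun m => D m ∧ e m ∈ S) n := by
  classical
  unfold cD Ws
  congr 2
  ext k
  simp only [mem_filter, mem_Icc]
  constructor
  · rintro ⟨h2, h3⟩
    exact ⟨h2, (wp_of_iff (fun a => h k a h2.1)).1 h3⟩
  · rintro ⟨h2, h3⟩
    exact ⟨h2, (wp_of_iff (fun a => h k a h2.1)).2 h3⟩

/-! ## Limits -/

theorem log_ratio {u : ℕ → ℕ} {c : ℝ} (hc : 0 < c) (h : Tendsto (fun n : ℕ => (u n : ℝ) / n) atTop (𝓝 c)) :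
    Tendsto (fun n : ℕ => Real.log (u n) / Real.log n) atTop (𝓝 1) := by
  have h1 := (((Real.continuousAt_log hc.ne').tendsto.comp h).div_atTop hl).const_add 1
  rw [add_zero] at h1
  refine h1.congr' ?_
  filter_upwards [h.eventually_const_lt hc, hl.eventually_gt_atTop 0, eventually_ge_atTop 1] with n h2 h3 h4
  have hn0 : (0 : ℝ) < n := by exact_mod_cast h4
  have hu0 : (0 : ℝ) < u n := by
    rcases (Nat.cast_nonneg (α := ℝ) (u n)).lt_or_eq with h5 | h5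
    · exact h5
    · rw [← h5, zero_div] at h2
      exact absurd h2 (lt_irrefl _)
  simp only [Function.comp_apply]
  rw [Real.log_div hu0.ne' hn0.ne']
  field_simp
  ring

theorem half_ratio : Tendsto (fun n : ℕ => (((n - 1) / 2 : ℕ) : ℝ) / n) atTop (𝓝 (1 / 2)) := by
  have h1 : Tendsto (fun n : ℕ => (1 : ℝ) / 2 - 1 / (n : ℝ)) atTop (𝓝 (1 / 2 - 0)) :=
    (tendsto_const_nhds.div_atTop tendsto_natCast_atTop_atTop).const_sub _
  rw [sub_zero] at h1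
  refine tendsto_of_tendsto_of_tendsto_of_le_of_le' h1 tendsto_const_nhds ?_ ?_
  · filter_upwards [eventually_ge_atTop 1] with n hn
    have hn0 : (0 : ℝ) < n := by exact_mod_cast hn
    rw [le_div_iff₀ hn0]
    have h2 : n ≤ 2 * ((n - 1) / 2) + 2 := by omega
    have h3 : (n : ℝ) ≤ 2 * (((n - 1) / 2 : ℕ) : ℝ) + 2 := by exact_mod_cast h2
    have h4 : (1 / 2 - 1 / (n : ℝ)) * n = n / 2 - 1 := by field_simp
    linarith
  · filter_upwards [eventually_ge_atTop 1] with n hn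
    have hn0 : (0 : ℝ) < n := by exact_mod_cast hn
    rw [div_le_iff₀ hn0]
    have h2 : 2 * ((n - 1) / 2) ≤ n := by omega
    have h3 : 2 * (((n - 1) / 2 : ℕ) : ℝ) ≤ n := by exact_mod_cast h2
    linarith

/-- The weights of the places `G2 (el m)`, `n / 2 ≤ m ≤ n`. -/
theorem uni {S : Set ℕ} (h : Tendsto (fun m : ℕ => Real.log (G2 (el S m)) / Real.log m) atTop (𝓝 2)) :
    ∀ δ : ℝ, 0 < δ → ∀ᶠ n : ℕ in atTop, ∀ m, n ≤ 2 * m → m ≤ n → |pb (G2 (el S m)) * Real.log n - 1 / 2| ≤ δ := by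
  intro δ hδ
  have h1 : Tendsto (fun m : ℕ => pb (G2 (el S m)) * Real.log m) atTop (𝓝 (1 / 2)) := by
    have h3 := h.inv₀ two_ne_zero
    rw [← one_div] at h3
    refine h3.congr (fun k => ?_)
    unfold pb
    rw [inv_div, one_div_mul_eq_div]
  have h2 : Tendsto (fun m : ℕ => pb (G2 (el S m)) * Real.log m / Real.log m) atTop (𝓝 0) := h1.div_atTop hl
  obtain ⟨m1, hm1⟩ := eventually_atTop.1 (((h1.eventually_lt_const (show (1 : ℝ) / 2 < 1 / 2 + δ / 2 by linarith)).and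
    (h1.eventually_const_lt (show (1 : ℝ) / 2 - δ / 2 < 1 / 2 by linarith))).and
    ((h2.eventually_lt_const (show (0 : ℝ) < δ / 2 by linarith)).and (hl.eventually_gt_atTop 0)))
  filter_upwards [eventually_ge_atTop (2 * m1 + 2)] with n hn m hm hmn
  obtain ⟨⟨h3, h4⟩, h5, h6⟩ := hm1 m (by omega)
  rw [mul_div_assoc, div_self h6.ne', mul_one] at h5
  have hm0 : (0 : ℝ) < m := by exact_mod_cast (show 0 < m by omega)
  have hn0 : (0 : ℝ) < n := by exact_mod_cast (show 0 < n by omega)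
  have h7 : Real.log (m : ℝ) ≤ Real.log n := Real.log_le_log hm0 (by exact_mod_cast hmn)
  have h8 : Real.log (n : ℝ) ≤ Real.log m + 1 := by
    have h9 : (n : ℝ) ≤ 2 * m := by exact_mod_cast hm
    have h10 := Real.log_le_log hn0 h9
    rw [Real.log_mul (by norm_num) hm0.ne'] at h10
    have h11 := Real.log_two_lt_d9
    linarith
  have h9 : 0 ≤ pb (G2 (el S m)) := pb_nonneg' _
  rw [abs_le]
  constructor
  · have := mul_le_mul_of_nonneg_left h7 h9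
    linarith
  · have h10 := mul_le_mul_of_nonneg_left h8 h9
    rw [mul_add, mul_one] at h10
    linarith

/-- The weights of the places `G2 (el (el m))`, `n / 2 ≤ el m`, `m ≤ n`. -/
theorem uni2 {S : Set ℕ} (hS : S.Infinite) (h0 : Tendsto (fun m : ℕ => Real.log (el S m) / Real.log m) atTop (𝓝 1)) :
    ∀ δ : ℝ, 0 < δ → ∀ᶠ n : ℕ in atTop, ∀ m, 1 ≤ m → n ≤ 2 * el S m → m ≤ n →
      |pb (G2 (el S (el S m))) * Real.log n - 1 / 2| ≤ δ := by
  intro δ hδ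
  have h := log_g2_el hS h0
  have h1 : Tendsto (fun m : ℕ => pb (G2 (el S m)) * Real.log m) atTop (𝓝 (1 / 2)) := by
    have h3 := h.inv₀ two_ne_zero
    rw [← one_div] at h3
    refine h3.congr (fun k => ?_)
    unfold pb
    rw [inv_div, one_div_mul_eq_div]
  have h2 : Tendsto (fun m : ℕ => pb (G2 (el S m)) * Real.log m / Real.log m) atTop (𝓝 0) := h1.div_atTop hl
  obtain ⟨e, he⟩ : ∃ e : ℝ, e = min (δ / 4) (1 / 4) := ⟨_, rfl⟩
  have he0 : 0 < e := by rw [he]; exact lt_min (by linarith) (by norm_num)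
  have he1 : e ≤ δ / 4 := by rw [he]; exact min_le_left _ _
  have he2 : e ≤ 1 / 4 := by rw [he]; exact min_le_right _ _
  obtain ⟨m1, hm1⟩ := eventually_atTop.1 (((h1.eventually_lt_const (show (1 : ℝ) / 2 < 1 / 2 + e by linarith)).and
    (h1.eventually_const_lt (show (1 : ℝ) / 2 - e < 1 / 2 by linarith))).and
    ((h2.eventually_lt_const (show (0 : ℝ) < e by linarith)).and (hl.eventually_gt_atTop 0)))
  filter_upwards [eventually_ge_atTop (2 * m1 + 2), h0.eventually_lt_const (show (1 : ℝ) < 1 + e by linarith),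
    hl.eventually_gt_atTop 0] with n hn hel hln m hm hm2 hmn
  obtain ⟨M, hM⟩ : ∃ M, M = el S m := ⟨_, rfl⟩
  have hMn : M ≤ el S n := by rw [hM]; exact el_mono' hS hm hmn
  rw [← hM] at hm2 ⊢
  obtain ⟨⟨h3, h4⟩, h5, h6⟩ := hm1 M (by omega)
  rw [mul_div_assoc, div_self h6.ne', mul_one] at h5
  have hM0 : (0 : ℝ) < M := by exact_mod_cast (show 0 < M by omega)
  have hn0 : (0 : ℝ) < n := by exact_mod_cast (show 0 < n by omega)
  rw [div_lt_iff₀ hln] at hel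
  have h7 : Real.log (M : ℝ) ≤ (1 + e) * Real.log n :=
    (Real.log_le_log hM0 (by exact_mod_cast hMn)).trans hel.le
  have h8 : Real.log (n : ℝ) ≤ Real.log M + 1 := by
    have h9 : (n : ℝ) ≤ 2 * M := by exact_mod_cast hm2
    have h10 := Real.log_le_log hn0 h9
    rw [Real.log_mul (by norm_num) hM0.ne'] at h10
    have h11 := Real.log_two_lt_d9
    linarith
  have h9 : 0 ≤ pb (G2 (el S M)) := pb_nonneg' _
  rw [abs_le]
  constructor
  · have h10 := mul_le_mul_of_nonneg_left h7 h9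
    have h11 : 1 / 2 - e ≤ (1 + e) * (pb (G2 (el S M)) * Real.log n) := by linarith
    by_contra hcon
    push Not at hcon
    have h12 : pb (G2 (el S M)) * Real.log n < 1 / 2 - δ := by linarith
    have h13 : 0 ≤ pb (G2 (el S M)) * Real.log n := mul_nonneg h9 hln.le
    nlinarith
  · have h10 := mul_le_mul_of_nonneg_left h8 h9
    rw [mul_add, mul_one] at h10
    linarith

end Pool.Agent.Q290.CR
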