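import Pool.Agent.Q290.CR.Tot

/-!
# The almost sure law for the number of all representations
-/

set_option autoImplicit false

namespace Pool.Agent.Q290.CR

open Finset Filter MeasureTheory Pool.Agent.Q120.ET Pool.Agent.Q120.MF Pool.Agent.Q197.CI
open scoped Topology

variable {Ω : Type*} [MeasurableSpace Ω] {μ : Measure Ω} [IsProbabilityMeasure μ] {A : Ω → Set ℕ}

open Classical in
/-- The law of large numbers for a family of tests. -/
theorem fam_law (hA : IsCramer μ A) {Pos : ℕ → ℕ → ℕ → Set ℕ → Prop} (hP : ∀ n m a, Dep a (Pos n m a)) (a : ℕ)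
    {κ : ℝ} (hκ : 0 < κ) {D : ℕ → ℕ → Set ℕ → Prop} {e : ℕ → ℕ → Set ℕ → ℕ}
    (h : ∀ᵐ ω ∂μ, (∀ n m a, 1 ≤ m → (Pos n m a (A ω) ↔ (D n m (A ω) ∧ a = e n m (A ω)))) ∧
      (∀ᶠ n in atTop, ∀ m, 1 ≤ m → m ≤ n → D n m (A ω) → 3 ≤ e n m (A ω) ∧ e n m (A ω) < (n + 2) ^ 9) ∧
      (∀ n m m', 1 ≤ m → 1 ≤ m' → D n m (A ω) → D n m' (A ω) → e n m (A ω) = e n m' (A ω) → m = m') ∧
      Tendsto (fun n : ℕ => (∑ m ∈ (Icc 1 n).filter (fun m => D n m (A ω)), pb (e n m (A ω))) * Real.log n ^ a / n)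
        atTop (𝓝 κ)) :
    ∀ᵐ ω ∂μ, Tendsto (fun n : ℕ => cD (fun m => D n m (A ω) ∧ e n m (A ω) ∈ A ω) n * Real.log n ^ a / n)
      atTop (𝓝 κ) := by
  have h1 := chern_as hA (fun n => HP (Pos n) n) (fun n a _ => dep_HP (hP n) n a) (fun n => (n + 2) ^ 9)
    (fun n : ℕ => (n : ℝ) / Real.log n ^ a) ?_ hκ ?_
  · filter_upwards [h1, h] with ω h2 h3
    obtain ⟨h4, h5, h6, h7⟩ := h3
    refine h2.congr' ?_
    filter_upwards [h5, hl.eventually_gt_atTop 0] with n h8 h9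
    rw [hits_HP (h4 n) h8 (h6 n), ws_cD (h4 n)]
    field_simp
  · refine (x_div_log_pow (a + 1)).congr (fun h => ?_)
    rw [div_div, pow_succ]
  · filter_upwards [h] with ω h3
    obtain ⟨h4, h5, h6, h7⟩ := h3
    refine h7.congr' ?_
    filter_upwards [h5, hl.eventually_gt_atTop 0] with n h8 h9
    rw [lam_HP (h4 n) h8 (h6 n)]
    field_simp

open Classical in
/-- The upper bound for a family of tests. -/
theorem fam_up (hA : IsCramer μ A) {Pos : ℕ → ℕ → ℕ → Set ℕ → Prop} (hP : ∀ n m a, Dep a (Pos n m a)) (a : ℕ)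
    {D : ℕ → ℕ → Set ℕ → Prop} {e : ℕ → ℕ → Set ℕ → ℕ}
    (h : ∀ᵐ ω ∂μ, (∀ n m a, 1 ≤ m → (Pos n m a (A ω) ↔ (D n m (A ω) ∧ a = e n m (A ω)))) ∧
      (∀ᶠ n in atTop, ∀ m, 1 ≤ m → m ≤ n → D n m (A ω) → 3 ≤ e n m (A ω) ∧ e n m (A ω) < (n + 2) ^ 9) ∧
      (∀ n m m', 1 ≤ m → 1 ≤ m' → D n m (A ω) → D n m' (A ω) → e n m (A ω) = e n m' (A ω) → m = m') ∧
      ∀ᶠ n : ℕ in atTop, (∑ m ∈ (Icc 1 n).filter (fun m => D n m (A ω)), pb (e n m (A ω))) ≤ n / Real.log n ^ a) :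
    ∀ᵐ ω ∂μ, ∀ᶠ n : ℕ in atTop, cD (fun m => D n m (A ω) ∧ e n m (A ω) ∈ A ω) n ≤ 2 * (n / Real.log n ^ a) := by
  have h1 := chern_up hA (fun n => HP (Pos n) n) (fun n a _ => dep_HP (hP n) n a) (fun n => (n + 2) ^ 9)
    (fun n : ℕ => (n : ℝ) / Real.log n ^ a) ?_ ?_
  · filter_upwards [h1, h] with ω h2 h3
    obtain ⟨h4, h5, h6, h7⟩ := h3
    filter_upwards [h2, h5] with n h8 h9
    rw [hits_HP (h4 n) h9 (h6 n), ws_cD (h4 n)] at h8
    exact h8
  · refine (x_div_log_pow (a + 1)).congr (fun h => ?_)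
    rw [div_div, pow_succ]
  · filter_upwards [h] with ω h3
    obtain ⟨h4, h5, h6, h7⟩ := h3
    filter_upwards [h5, h7] with n h8 h9
    rw [lam_HP (h4 n) h8 (h6 n)]
    exact h9

theorem cD_trunc (P : ℕ → Prop) {h n : ℕ} (hn : h ≤ n) : cD (fun k => k ≤ h ∧ P k) n = cD P h := by
  classical
  unfold cD
  congr 2
  ext k
  simp only [mem_filter, mem_Icc]
  constructor
  · rintro ⟨⟨h1, _⟩, h2, h3⟩
    exact ⟨⟨h1, h2⟩, h3⟩
  · rintro ⟨⟨h1, h2⟩, h3⟩
    exact ⟨⟨h1, h2.trans hn⟩, h2, h3⟩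

theorem idx_le {S : Set ℕ} (hS : S.Infinite) {m n : ℕ} (hm : 1 ≤ m) (h : el S m ≤ n) : m ≤ ct S (n + 1) := by
  have h1 := isEl_el hS hm
  have h2 := ct_mono S (show el S m + 1 ≤ n + 1 by omega)
  rw [ct_succ_of_mem h1.1 h1.2.1, h1.2.2] at h2
  exact h2

theorem at_H {f : ℕ → ℝ} {H : ℕ → ℕ} {a : ℕ} {κ : ℝ} (hf : Tendsto (fun h : ℕ => f h * Real.log h ^ a / h) atTop (𝓝 κ))
    (hH : Tendsto (fun n : ℕ => (H n : ℝ) * Real.log n / n) atTop (𝓝 1)) (hH1 : Tendsto H atTop atTop)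
    (hH2 : Tendsto (fun n : ℕ => Real.log (H n) / Real.log n) atTop (𝓝 1)) :
    Tendsto (fun n : ℕ => f (H n) * Real.log n ^ (a + 1) / n) atTop (𝓝 κ) := by
  have h1 := ((hf.comp hH1).mul hH).div (hH2.pow a) (by norm_num)
  rw [mul_one, one_pow, div_one] at h1
  refine h1.congr' ?_
  filter_upwards [hl.eventually_gt_atTop 0, eventually_ge_atTop 1, hH1.eventually_ge_atTop 3] with n h2 h3 h4
  have hn0 : (0 : ℝ) < n := by exact_mod_cast h3
  have hH0 : (0 : ℝ) < H n := by exact_mod_cast (show 0 < H n by omega)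
  have hlH : 0 < Real.log (H n : ℝ) := Real.log_pos (by exact_mod_cast (show 1 < H n by omega))
  simp only [Function.comp_apply, Pi.div_apply, div_pow]
  rw [pow_succ]
  field_simp

/-- The places are bounded. -/
theorem ae_places (hA : IsCramer μ A) : ∀ᵐ ω ∂μ, ∀ᶠ n in atTop, ∀ m, 1 ≤ m → m ≤ n →
    (3 ≤ G2 (el (A ω) m) ∧ G2 (el (A ω) m) < (n + 2) ^ 9) ∧
    (3 ≤ G2 (el (A ω) (el (A ω) m)) ∧ G2 (el (A ω) (el (A ω) m)) < (n + 2) ^ 9) := by
  filter_upwards [ae_infinite hA, ae_bd hA] with ω hinf h1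
  filter_upwards [h1] with n h2 m hm1 hm2
  exact ⟨⟨g2_ge3 (el_ge3 hinf _), (h2.2.2 m hm1 hm2).2⟩, ⟨g2_ge3 (el_ge3 hinf _), (h2.2.2 m hm1 hm2).1⟩⟩

/-- The number of the pairs with the larger index `m`. -/
theorem law1 (hA : IsCramer μ A) : ∀ᵐ ω ∂μ, Tendsto (fun n : ℕ =>
    cD (fun m => (n < 2 * m ∧ m < n ∧ G2 (el (A ω) (n - m)) ∈ A ω) ∧ G2 (el (A ω) m) ∈ A ω) n * Real.log n ^ 2 / n)
      atTop (𝓝 (1 / 8)) := by
  classical
  refine fam_law hA dep_P1 2 (by norm_num) (D := fun n m S => n < 2 * m ∧ m < n ∧ G2 (el S (n - m)) ∈ S)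
    (e := fun _ m S => G2 (el S m)) ?_
  filter_upwards [ae_infinite hA, ae_places hA, ae_log_el hA, lawa hA] with ω hinf h1 h2 h3
  refine ⟨fun n m a hm => p1_iff hinf n hm a, ?_, fun n m m' hm hm' _ _ h =>
    el_inj hinf hm hm' (tgt_sq.mono.injective h), ?_⟩
  · filter_upwards [h1] with n h4 m hm1 hm2 _
    exact (h4 m hm1 hm2).1
  · have hcD : Tendsto (fun h : ℕ => cD (fun m => G2 (el (A ω) m) ∈ A ω) h * Real.log h ^ 1 / h) atTop (𝓝 (1 / 2)) := by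
      refine h3.congr (fun h => ?_)
      rw [cDa hinf]
    have hr := half_ratio
    have hlr := log_ratio (by norm_num) hr
    have htop : Tendsto (fun n : ℕ => (n - 1) / 2) atTop atTop := by
      refine tendsto_atTop.2 (fun b => ?_)
      filter_upwards [eventually_ge_atTop (2 * b + 2)] with n hn
      omega
    have h4 : Tendsto (fun n : ℕ => cD (fun m => n < 2 * m ∧ m < n ∧ G2 (el (A ω) (n - m)) ∈ A ω) n * Real.log n ^ 1 / n)
        atTop (𝓝 (1 / 4)) := by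
      have h5 := ((hcD.comp htop).mul hr).div hlr one_ne_zero
      have e : (1 : ℝ) / 2 * (1 / 2) / 1 = 1 / 4 := by norm_num
      rw [e] at h5
      refine h5.congr' ?_
      filter_upwards [hl.eventually_gt_atTop 0, eventually_ge_atTop 1, htop.eventually_ge_atTop 3] with n h6 h7 h8
      have hn0 : (0 : ℝ) < n := by exact_mod_cast h7
      have hH0 : (0 : ℝ) < (((n - 1) / 2 : ℕ) : ℝ) := by exact_mod_cast (show 0 < (n - 1) / 2 by omega)
      have hlH : 0 < Real.log (((n - 1) / 2 : ℕ) : ℝ) := Real.log_pos (by exact_mod_cast (show 1 < (n - 1) / 2 by omega))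
      have h9 : cD (fun m => n < 2 * m ∧ m < n ∧ G2 (el (A ω) (n - m)) ∈ A ω) n =
          cD (fun m => G2 (el (A ω) m) ∈ A ω) ((n - 1) / 2) := by
        have e1 : cD (fun m => n < 2 * m ∧ m < n ∧ G2 (el (A ω) (n - m)) ∈ A ω) n =
            cD (fun m => m < n ∧ (fun k => k ≤ (n - 1) / 2 ∧ G2 (el (A ω) k) ∈ A ω) (n - m)) n := by
          refine cD_congr (fun m hm1 hm2 => ?_)
          constructor
          · rintro ⟨k1, k2, k3⟩
            exact ⟨k2, by omega, k3⟩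
          · rintro ⟨k2, k1, k3⟩
            exact ⟨by omega, k2, k3⟩
        rw [e1, cD_reflect (fun k => k ≤ (n - 1) / 2 ∧ G2 (el (A ω) k) ∈ A ω) n,
          ← cD_trunc (fun m => G2 (el (A ω) m) ∈ A ω) (show (n - 1) / 2 ≤ n by omega)]
        refine cD_congr (fun m hm1 hm2 => ?_)
        constructor
        · rintro ⟨_, k⟩
          exact k
        · exact fun k => ⟨by have := k.1; omega, k⟩
      rw [h9]
      simp only [Function.comp_apply, pow_one, Pi.div_apply]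
      field_simp
    have h5 := usum (D := fun n m => n < 2 * m ∧ m < n ∧ G2 (el (A ω) (n - m)) ∈ A ω)
      (w := fun _ m => pb (G2 (el (A ω) m))) (κ := 1 / 2) h4 (fun δ hδ => by
        filter_upwards [uni (log_g2_el hinf h2) δ hδ] with n h6 m _ hm2 hD
        exact h6 m (by omega) hm2)
    have e : (1 : ℝ) / 4 * (1 / 2) = 1 / 8 := by norm_num
    rw [e] at h5
    exact h5

/-- The number of the pairs. -/
theorem law_pairs (hA : IsCramer μ A) : ∀ᵐ ω ∂μ, Tendsto (fun n : ℕ =>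
    cD (fun m => m < n ∧ G2 (el (A ω) m) ∈ A ω ∧ G2 (el (A ω) (n - m)) ∈ A ω) n * Real.log n ^ 2 / n)
      atTop (𝓝 (1 / 4)) := by
  filter_upwards [law1 hA] with ω h1
  have h0 : Tendsto (fun n : ℕ => Real.log (n : ℝ) ^ 2 / n) atTop (𝓝 0) := by
    have h2 := (x_div_log_pow 2).inv_tendsto_atTop
    refine h2.congr (fun n => ?_)
    simp only [Pi.inv_apply, inv_div]
  have h2 := (h1.const_mul 2)
  have h3 := h2.add h0
  have e : (2 : ℝ) * (1 / 8) = 1 / 4 := by norm_num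
  rw [e] at h2
  rw [e, add_zero] at h3
  have hsplit : ∀ n : ℕ, cD (fun m => m < n ∧ G2 (el (A ω) m) ∈ A ω ∧ G2 (el (A ω) (n - m)) ∈ A ω) n =
      cD (fun m => (n < 2 * m ∧ m < n ∧ G2 (el (A ω) (n - m)) ∈ A ω) ∧ G2 (el (A ω) m) ∈ A ω) n +
      (cD (fun m => (n < 2 * m ∧ m < n ∧ G2 (el (A ω) (n - m)) ∈ A ω) ∧ G2 (el (A ω) m) ∈ A ω) n +
      cD (fun m => 2 * m = n ∧ m < n ∧ G2 (el (A ω) m) ∈ A ω ∧ G2 (el (A ω) (n - m)) ∈ A ω) n) := by
    intro n
    have e1 : cD (fun m => (n < 2 * m ∧ m < n ∧ G2 (el (A ω) (n - m)) ∈ A ω) ∧ G2 (el (A ω) m) ∈ A ω) n =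
        cD (fun m => 2 * m < n ∧ m < n ∧ G2 (el (A ω) m) ∈ A ω ∧ G2 (el (A ω) (n - m)) ∈ A ω) n := by
      have e2 : cD (fun m => (n < 2 * m ∧ m < n ∧ G2 (el (A ω) (n - m)) ∈ A ω) ∧ G2 (el (A ω) m) ∈ A ω) n =
          cD (fun m => m < n ∧ (n < 2 * m ∧ G2 (el (A ω) (n - m)) ∈ A ω ∧ G2 (el (A ω) m) ∈ A ω)) n := by
        refine cD_congr (fun m _ _ => ?_)
        tauto
      have e3 := cD_reflect (fun m => n < 2 * m ∧ G2 (el (A ω) (n - m)) ∈ A ω ∧ G2 (el (A ω) m) ∈ A ω) n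
      rw [e2, ← e3]
      refine cD_congr (fun m hm1 hm2 => ?_)
      constructor
      · rintro ⟨k1, k2, k3, k4⟩
        rw [show n - (n - m) = m by omega] at k3
        exact ⟨by omega, k1, k3, k4⟩
      · rintro ⟨k1, k2, k3, k4⟩
        refine ⟨k2, by omega, ?_, k4⟩
        rw [show n - (n - m) = m by omega]
        exact k3
    rw [cD_split (Q := fun m => (n < 2 * m ∧ m < n ∧ G2 (el (A ω) (n - m)) ∈ A ω) ∧ G2 (el (A ω) m) ∈ A ω)
      (R := fun m => 2 * m ≤ n ∧ m < n ∧ G2 (el (A ω) m) ∈ A ω ∧ G2 (el (A ω) (n - m)) ∈ A ω)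
      (fun m _ _ => ?_) (fun m _ _ k1 k2 => by have := k1.1.1; have := k2.1; omega)]
    · congr 1
      rw [cD_split (Q := fun m => 2 * m < n ∧ m < n ∧ G2 (el (A ω) m) ∈ A ω ∧ G2 (el (A ω) (n - m)) ∈ A ω)
        (R := fun m => 2 * m = n ∧ m < n ∧ G2 (el (A ω) m) ∈ A ω ∧ G2 (el (A ω) (n - m)) ∈ A ω)
        (fun m _ _ => ?_) (fun m _ _ k1 k2 => by have := k1.1; have := k2.1; omega), ← e1]
      constructor
      · rintro ⟨k1, k2⟩
        rcases k1.lt_or_eq with k3 | k3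
        · exact Or.inl ⟨k3, k2⟩
        · exact Or.inr ⟨k3, k2⟩
      · rintro (⟨k1, k2⟩ | ⟨k1, k2⟩)
        · exact ⟨k1.le, k2⟩
        · exact ⟨k1.le, k2⟩
    · constructor
      · rintro ⟨k1, k2, k3⟩
        rcases Nat.lt_or_ge n (2 * m) with k4 | k4
        · exact Or.inl ⟨⟨k4, k1, k3⟩, k2⟩
        · exact Or.inr ⟨k4, k1, k2, k3⟩
      · rintro (⟨⟨_, k1, k2⟩, k3⟩ | ⟨_, k1, k2, k3⟩)
        · exact ⟨k1, k3, k2⟩
        · exact ⟨k1, k2, k3⟩
  have hone : ∀ n : ℕ, cD (fun m => 2 * m = n ∧ m < n ∧ G2 (el (A ω) m) ∈ A ω ∧ G2 (el (A ω) (n - m)) ∈ A ω) n ≤ 1 :=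
    fun n => cD_le_one (fun m m' _ _ k1 k2 => by have := k1.1; have := k2.1; omega)
  refine tendsto_of_tendsto_of_tendsto_of_le_of_le' h2 h3 ?_ ?_
  · filter_upwards [eventually_ge_atTop 1] with n hn
    have hn0 : (0 : ℝ) < n := by exact_mod_cast hn
    have hlog : 0 ≤ Real.log (n : ℝ) := Real.log_natCast_nonneg n
    rw [hsplit n, ← mul_div_assoc, ← mul_assoc]
    have := cD_nonneg (fun m => 2 * m = n ∧ m < n ∧ G2 (el (A ω) m) ∈ A ω ∧ G2 (el (A ω) (n - m)) ∈ A ω) n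
    refine div_le_div_of_nonneg_right (mul_le_mul_of_nonneg_right ?_ (pow_nonneg hlog _)) hn0.le
    linarith
  · filter_upwards [eventually_ge_atTop 1] with n hn
    have hn0 : (0 : ℝ) < n := by exact_mod_cast hn
    have hlog : 0 ≤ Real.log (n : ℝ) := Real.log_natCast_nonneg n
    rw [hsplit n, ← mul_div_assoc, ← add_div, ← mul_assoc, ← add_one_mul]
    have := hone n
    refine div_le_div_of_nonneg_right (mul_le_mul_of_nonneg_right ?_ (pow_nonneg hlog _)) hn0.le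
    linarith

theorem ae_H (hA : IsCramer μ A) : ∀ᵐ ω ∂μ,
    Tendsto (fun n : ℕ => (ct (A ω) (n + 1) : ℝ) * Real.log n / n) atTop (𝓝 1) ∧
    Tendsto (fun n => ct (A ω) (n + 1)) atTop atTop ∧
    Tendsto (fun n : ℕ => Real.log (ct (A ω) (n + 1)) / Real.log n) atTop (𝓝 1) := by
  filter_upwards [ct_law' hA] with ω h1
  exact ⟨h1, (ct_top h1).1, (ct_top h1).2⟩

/-- A sum over few places of about `log n`. -/
theorem sum_few {S : Set ℕ} {D : ℕ → ℕ → Prop} {f : ℕ → ℝ} {a : ℕ} {κ : ℝ} (hκ : κ < 1)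
    (h : Tendsto (fun m : ℕ => Real.log (G2 (el S m)) / Real.log m) atTop (𝓝 2))
    (hD : ∀ n m, 1 ≤ m → D n m → n ≤ 2 * (n - m) ∧ m < n) (hf : ∀ n, cD (D n) n ≤ f n)
    (hlim : Tendsto (fun n : ℕ => f n * Real.log n ^ a / n) atTop (𝓝 κ)) :
    ∀ᶠ n : ℕ in atTop, haveI := Classical.decPred (D n)
      (∑ m ∈ (Icc 1 n).filter (D n), pb (G2 (el S (n - m)))) ≤ n / Real.log n ^ (a + 1) := by
  classical
  filter_upwards [uni h (1 / 2) (by norm_num), hl.eventually_gt_atTop 0, eventually_ge_atTop 1,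
    hlim.eventually_lt_const hκ] with n h1 h2 h3 h4
  have hn0 : (0 : ℝ) < n := by exact_mod_cast h3
  have h5 : (∑ m ∈ (Icc 1 n).filter (D n), pb (G2 (el S (n - m)))) ≤ cD (D n) n * (1 / Real.log n) := by
    unfold cD
    rw [← nsmul_eq_mul]
    have e : (Icc 1 n).filter (D n) = @Finset.filter ℕ (D n) (fun a => Classical.propDecidable _) (Icc 1 n) := by
      congr
    refine sum_le_card_nsmul _ _ _ (fun m hm => ?_)
    rw [mem_filter, mem_Icc] at hm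
    obtain ⟨h6, h7⟩ := hD n m hm.1.1 hm.2
    have h8 := (abs_le.1 (h1 (n - m) h6 (by omega))).2
    rw [le_div_iff₀ h2]
    linarith
  have h6 : cD (D n) n * (1 / Real.log n) ≤ f n * (1 / Real.log n) :=
    mul_le_mul_of_nonneg_right (hf n) (by positivity)
  rw [div_lt_one hn0] at h4
  have h7 : f n * (1 / Real.log n) ≤ n / Real.log n ^ (a + 1) := by
    rw [le_div_iff₀ (by positivity), pow_succ]
    have e : f n * (1 / Real.log n) * (Real.log n ^ a * Real.log n) = f n * Real.log n ^ a := by field_simp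
    rw [e]
    exact h4.le
  exact (h5.trans h6).trans h7

/-- Few pairs have `el m ≤ n - m`. -/
theorem up2 (hA : IsCramer μ A) : ∀ᵐ ω ∂μ, ∀ᶠ n : ℕ in atTop,
    cD (fun m => (m < n ∧ el (A ω) m ≤ n - m ∧ G2 (el (A ω) m) ∈ A ω) ∧ G2 (el (A ω) (n - m)) ∈ A ω) n ≤
      2 * (n / Real.log n ^ 3) := by
  classical
  refine fam_up hA dep_P2 3 (D := fun n m S => m < n ∧ el S m ≤ n - m ∧ G2 (el S m) ∈ S)
    (e := fun n m S => G2 (el S (n - m))) ?_
  filter_upwards [ae_infinite hA, ae_places hA, ae_log_el hA, lawa hA, ae_H hA] with ω hinf h1 h2 h3 h4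
  obtain ⟨h5, h6, h7⟩ := h4
  refine ⟨fun n m a hm => p2_iff hinf n hm a, ?_, fun n m m' hm hm' k1 k2 h => ?_, ?_⟩
  · filter_upwards [h1] with n h4 m hm1 hm2 hD
    exact (h4 (n - m) (by have := hD.1; omega) (by omega)).1
  · have := el_inj hinf (show 1 ≤ n - m by have := k1.1; omega) (show 1 ≤ n - m' by have := k2.1; omega)
      (tgt_sq.mono.injective h)
    have := k1.1
    have := k2.1
    omega
  · have hcD : Tendsto (fun h : ℕ => cD (fun m => G2 (el (A ω) m) ∈ A ω) h * Real.log h ^ 1 / h) atTop (𝓝 (1 / 2)) := by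
      refine h3.congr (fun h => ?_)
      rw [cDa hinf]
    have h8 := at_H hcD h5 h6 h7
    refine sum_few (a := 2) (show (1 : ℝ) / 2 < 1 by norm_num) (log_g2_el hinf h2) (fun n m hm hD => ?_) (fun n => ?_) h8
    · have := el_ge hinf hm
      have := hD.1
      have := hD.2.1
      omega
    · rw [← cD_trunc (fun m => G2 (el (A ω) m) ∈ A ω) (show ct (A ω) (n + 1) ≤ n by
        have := ct_le_sub (A ω) (n + 1)
        omega)]
      refine cD_mono (fun m hm1 hm2 k => ⟨idx_le hinf hm1 (by have := k.2.1; omega), k.2.2⟩)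

/-- Few triples have `el m < n - m`. -/
theorem up3 (hA : IsCramer μ A) : ∀ᵐ ω ∂μ, ∀ᶠ n : ℕ in atTop,
    cD (fun m => (m < n ∧ el (A ω) m < n - m ∧ G2 (el (A ω) m) ∈ A ω ∧ G2 (el (A ω) (el (A ω) m)) ∈ A ω) ∧
      G2 (el (A ω) (n - m)) ∈ A ω) n ≤ 2 * (n / Real.log n ^ 4) := by
  classical
  refine fam_up hA dep_P3 4 (D := fun n m S => m < n ∧ el S m < n - m ∧ G2 (el S m) ∈ S ∧ G2 (el S (el S m)) ∈ S)
    (e := fun n m S => G2 (el S (n - m))) ?_
  filter_upwards [ae_infinite hA, ae_places hA, ae_log_el hA, lawb hA, ae_H hA] with ω hinf h1 h2 h3 h4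
  obtain ⟨h5, h6, h7⟩ := h4
  refine ⟨fun n m a hm => p3_iff hinf n hm a, ?_, fun n m m' hm hm' k1 k2 h => ?_, ?_⟩
  · filter_upwards [h1] with n h4 m hm1 hm2 hD
    exact (h4 (n - m) (by have := hD.1; omega) (by omega)).1
  · have := el_inj hinf (show 1 ≤ n - m by have := k1.1; omega) (show 1 ≤ n - m' by have := k2.1; omega)
      (tgt_sq.mono.injective h)
    have := k1.1
    have := k2.1
    omega
  · have hcD : Tendsto (fun h : ℕ => cD (fun m => G2 (el (A ω) m) ∈ A ω ∧ G2 (el (A ω) (el (A ω) m)) ∈ A ω) h *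
        Real.log h ^ 2 / h) atTop (𝓝 (1 / 4)) := by
      refine h3.congr (fun h => ?_)
      rw [ws_cD (D := fun m => G2 (el (A ω) m) ∈ A ω) (e := fun m => G2 (el (A ω) (el (A ω) m)))
        (fun m a hm => pb_iff hinf hm a)]
    have h8 := at_H hcD h5 h6 h7
    refine sum_few (a := 3) (show (1 : ℝ) / 4 < 1 by norm_num) (log_g2_el hinf h2) (fun n m hm hD => ?_) (fun n => ?_) h8
    · have := el_ge hinf hm
      have := hD.1
      have := hD.2.1
      omega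
    · rw [← cD_trunc (fun m => G2 (el (A ω) m) ∈ A ω ∧ G2 (el (A ω) (el (A ω) m)) ∈ A ω)
        (show ct (A ω) (n + 1) ≤ n by
          have := ct_le_sub (A ω) (n + 1)
          omega)]
      refine cD_mono (fun m hm1 hm2 k => ⟨idx_le hinf hm1 (by have := k.2.1; omega), k.2.2⟩)

theorem small_lim (c : ℝ) (a b : ℕ) (hab : a < b) :
    Tendsto (fun n : ℕ => c * (n / Real.log n ^ b) * Real.log n ^ a / n) atTop (𝓝 0) := by
  obtain ⟨d, rfl⟩ : ∃ d, b = a + d + 1 := ⟨b - a - 1, by omega⟩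
  have h1 : Tendsto (fun n : ℕ => c / Real.log (n : ℝ) ^ (d + 1)) atTop (𝓝 0) :=
    tendsto_const_nhds.div_atTop ((tendsto_pow_atTop (by omega)).comp hl)
  refine h1.congr' ?_
  filter_upwards [hl.eventually_gt_atTop 0, eventually_ge_atTop 1] with n h2 h3
  have hn0 : (0 : ℝ) < n := by exact_mod_cast h3
  have e : Real.log (n : ℝ) ^ (a + d + 1) = Real.log n ^ a * Real.log n ^ (d + 1) := by
    rw [← pow_add]
    congr 1
  rw [e]
  field_simp

/-- The number of the triples with `n - m < el m`. -/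
theorem law4 (hA : IsCramer μ A) : ∀ᵐ ω ∂μ, Tendsto (fun n : ℕ =>
    cD (fun m => (m < n ∧ n - m < el (A ω) m ∧ G2 (el (A ω) m) ∈ A ω ∧ G2 (el (A ω) (n - m)) ∈ A ω) ∧
      G2 (el (A ω) (el (A ω) m)) ∈ A ω) n * Real.log n ^ 3 / n) atTop (𝓝 (1 / 8)) := by
  classical
  refine fam_law hA dep_P4 3 (by norm_num)
    (D := fun n m S => m < n ∧ n - m < el S m ∧ G2 (el S m) ∈ S ∧ G2 (el S (n - m)) ∈ S)
    (e := fun _ m S => G2 (el S (el S m))) ?_
  filter_upwards [ae_infinite hA, ae_places hA, ae_log_el hA, law_pairs hA, up2 hA] with ω hinf h1 h2 h3 h4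
  refine ⟨fun n m a hm => p4_iff hinf n hm a, ?_, fun n m m' hm hm' _ _ h => ?_, ?_⟩
  · filter_upwards [h1] with n h4 m hm1 hm2 _
    exact (h4 m hm1 hm2).2
  · have g1 := el_ge hinf hm
    have g2 := el_ge hinf hm'
    exact el_inj hinf hm hm' (el_inj hinf (by omega) (by omega) (tgt_sq.mono.injective h))
  · have h5 : Tendsto (fun n : ℕ => cD (fun m => m < n ∧ n - m < el (A ω) m ∧ G2 (el (A ω) m) ∈ A ω ∧
        G2 (el (A ω) (n - m)) ∈ A ω) n * Real.log n ^ 2 / n) atTop (𝓝 (1 / 4)) := by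
      have h6 := h3.sub (small_lim 2 2 3 (by norm_num))
      rw [sub_zero] at h6
      have hsplit : ∀ n : ℕ, cD (fun m => m < n ∧ G2 (el (A ω) m) ∈ A ω ∧ G2 (el (A ω) (n - m)) ∈ A ω) n =
          cD (fun m => m < n ∧ n - m < el (A ω) m ∧ G2 (el (A ω) m) ∈ A ω ∧ G2 (el (A ω) (n - m)) ∈ A ω) n +
          cD (fun m => (m < n ∧ el (A ω) m ≤ n - m ∧ G2 (el (A ω) m) ∈ A ω) ∧ G2 (el (A ω) (n - m)) ∈ A ω) n := by
        intro n
        refine cD_split (fun m _ _ => ?_) (fun m _ _ k1 k2 => by have := k1.2.1; have := k2.1.2.1; omega)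
        constructor
        · rintro ⟨k1, k2, k3⟩
          rcases Nat.lt_or_ge (n - m) (el (A ω) m) with k4 | k4
          · exact Or.inl ⟨k1, k4, k2, k3⟩
          · exact Or.inr ⟨⟨k1, k4, k2⟩, k3⟩
        · rintro (⟨k1, _, k2, k3⟩ | ⟨⟨k1, _, k2⟩, k3⟩)
          · exact ⟨k1, k2, k3⟩
          · exact ⟨k1, k2, k3⟩
      refine tendsto_of_tendsto_of_tendsto_of_le_of_le' h6 h3 ?_ ?_
      · filter_upwards [h4, eventually_ge_atTop 1] with n h7 hn
        have hn0 : (0 : ℝ) < n := by exact_mod_cast hn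
        have hlog : 0 ≤ Real.log (n : ℝ) := Real.log_natCast_nonneg n
        rw [hsplit n, ← sub_div, ← sub_mul]
        gcongr
        linarith
      · filter_upwards [eventually_ge_atTop 1] with n hn
        have hn0 : (0 : ℝ) < n := by exact_mod_cast hn
        have hlog : 0 ≤ Real.log (n : ℝ) := Real.log_natCast_nonneg n
        rw [hsplit n]
        have := cD_nonneg (fun m => (m < n ∧ el (A ω) m ≤ n - m ∧ G2 (el (A ω) m) ∈ A ω) ∧
          G2 (el (A ω) (n - m)) ∈ A ω) n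
        gcongr
        linarith
    have h6 := usum (D := fun n m => m < n ∧ n - m < el (A ω) m ∧ G2 (el (A ω) m) ∈ A ω ∧ G2 (el (A ω) (n - m)) ∈ A ω)
      (w := fun _ m => pb (G2 (el (A ω) (el (A ω) m)))) (κ := 1 / 2) h5 (fun δ hδ => by
        filter_upwards [uni2 hinf h2 δ hδ] with n h6 m hm1 hm2 hD
        have g1 := el_ge hinf hm1
        have g2 := hD.1
        have g3 := hD.2.1
        exact h6 m hm1 (by omega) hm2)
    have e : (1 : ℝ) / 4 * (1 / 2) = 1 / 8 := by norm_num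
    rw [e] at h6
    exact h6

/-- The number of all representations of `n`. -/
theorem total (hA : IsCramer μ A) : ∀ᵐ ω ∂μ, Tendsto (fun n : ℕ =>
    ({m : ℕ | 1 ≤ m ∧ m < n ∧ Sol (A ω) n m}.ncard : ℝ) * Real.log n ^ 3 / n) atTop (𝓝 (1 / 8)) := by
  classical
  filter_upwards [ae_infinite hA, law4 hA, up3 hA] with ω hinf h1 h2
  have h0 : Tendsto (fun n : ℕ => Real.log (n : ℝ) ^ 3 / n) atTop (𝓝 0) := by
    have h2 := (x_div_log_pow 3).inv_tendsto_atTop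
    refine h2.congr (fun n => ?_)
    simp only [Pi.inv_apply, inv_div]
  have hup := (h1.add (small_lim 2 3 4 (by norm_num))).add h0
  rw [add_zero, add_zero] at hup
  have hcard : ∀ n : ℕ, ({m : ℕ | 1 ≤ m ∧ m < n ∧ Sol (A ω) n m}.ncard : ℝ) =
      cD (fun m => m < n ∧ G2 (el (A ω) (n - m)) ∈ A ω ∧ G2 (el (A ω) m) ∈ A ω ∧ G2 (el (A ω) (el (A ω) m)) ∈ A ω) n := by
    intro n
    unfold cD
    rw [← Set.ncard_coe_finset]
    congr 2
    ext m
    simp only [Set.mem_ofPred_eq, coe_filter, mem_Icc, sol_iff hinf]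
    constructor
    · rintro ⟨k1, k2, k3⟩
      exact ⟨⟨k1, k2.le⟩, k2, k3⟩
    · rintro ⟨⟨k1, _⟩, k2, k3⟩
      exact ⟨k1, k2, k3⟩
  have hsplit : ∀ n : ℕ,
      cD (fun m => m < n ∧ G2 (el (A ω) (n - m)) ∈ A ω ∧ G2 (el (A ω) m) ∈ A ω ∧ G2 (el (A ω) (el (A ω) m)) ∈ A ω) n =
      cD (fun m => (m < n ∧ n - m < el (A ω) m ∧ G2 (el (A ω) m) ∈ A ω ∧ G2 (el (A ω) (n - m)) ∈ A ω) ∧
        G2 (el (A ω) (el (A ω) m)) ∈ A ω) n +
      (cD (fun m => (m < n ∧ el (A ω) m < n - m ∧ G2 (el (A ω) m) ∈ A ω ∧ G2 (el (A ω) (el (A ω) m)) ∈ A ω) ∧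
        G2 (el (A ω) (n - m)) ∈ A ω) n +
      cD (fun m => (m < n ∧ el (A ω) m = n - m ∧ G2 (el (A ω) m) ∈ A ω ∧ G2 (el (A ω) (el (A ω) m)) ∈ A ω) ∧
        G2 (el (A ω) (n - m)) ∈ A ω) n) := by
    intro n
    rw [← cD_split (P := fun m => (m < n ∧ el (A ω) m ≤ n - m ∧ G2 (el (A ω) m) ∈ A ω ∧
        G2 (el (A ω) (el (A ω) m)) ∈ A ω) ∧ G2 (el (A ω) (n - m)) ∈ A ω) (fun m _ _ => ?_)
        (fun m _ _ k1 k2 => by have := k1.1.2.1; have := k2.1.2.1; omega)]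
    · refine cD_split (fun m _ _ => ?_) (fun m _ _ k1 k2 => by have := k1.1.2.1; have := k2.1.2.1; omega)
      constructor
      · rintro ⟨k1, k2, k3, k4⟩
        rcases Nat.lt_or_ge (n - m) (el (A ω) m) with k5 | k5
        · exact Or.inl ⟨⟨k1, k5, k3, k2⟩, k4⟩
        · exact Or.inr ⟨⟨k1, k5, k3, k4⟩, k2⟩
      · rintro (⟨⟨k1, _, k3, k2⟩, k4⟩ | ⟨⟨k1, _, k3, k4⟩, k2⟩)
        · exact ⟨k1, k2, k3, k4⟩
        · exact ⟨k1, k2, k3, k4⟩
    · constructor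
      · rintro ⟨⟨k1, k2, k3⟩, k4⟩
        rcases k2.lt_or_eq with k5 | k5
        · exact Or.inl ⟨⟨k1, k5, k3⟩, k4⟩
        · exact Or.inr ⟨⟨k1, k5, k3⟩, k4⟩
      · rintro (⟨⟨k1, k2, k3⟩, k4⟩ | ⟨⟨k1, k2, k3⟩, k4⟩)
        · exact ⟨⟨k1, k2.le, k3⟩, k4⟩
        · exact ⟨⟨k1, k2.le, k3⟩, k4⟩
  have hone : ∀ n : ℕ, cD (fun m => (m < n ∧ el (A ω) m = n - m ∧ G2 (el (A ω) m) ∈ A ω ∧
      G2 (el (A ω) (el (A ω) m)) ∈ A ω) ∧ G2 (el (A ω) (n - m)) ∈ A ω) n ≤ 1 := by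
    refine fun n => cD_le_one (fun m m' hm hm' k1 k2 => ?_)
    have g1 := k1.1.2.1
    have g2 := k2.1.2.1
    have g3 := k1.1.1
    have g4 := k2.1.1
    rcases lt_trichotomy m m' with h4 | h4 | h4
    · have := el_lt_el hinf hm h4
      omega
    · exact h4
    · have := el_lt_el hinf hm' h4
      omega
  refine tendsto_of_tendsto_of_tendsto_of_le_of_le' h1 hup ?_ ?_
  · filter_upwards [eventually_ge_atTop 1] with n hn
    have hn0 : (0 : ℝ) < n := by exact_mod_cast hn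
    have hlog : 0 ≤ Real.log (n : ℝ) := Real.log_natCast_nonneg n
    rw [hcard n, hsplit n]
    have g1 := cD_nonneg (fun m => (m < n ∧ el (A ω) m < n - m ∧ G2 (el (A ω) m) ∈ A ω ∧
      G2 (el (A ω) (el (A ω) m)) ∈ A ω) ∧ G2 (el (A ω) (n - m)) ∈ A ω) n
    have g2 := cD_nonneg (fun m => (m < n ∧ el (A ω) m = n - m ∧ G2 (el (A ω) m) ∈ A ω ∧
      G2 (el (A ω) (el (A ω) m)) ∈ A ω) ∧ G2 (el (A ω) (n - m)) ∈ A ω) n
    refine div_le_div_of_nonneg_right (mul_le_mul_of_nonneg_right ?_ (pow_nonneg hlog _)) hn0.le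
    linarith
  · filter_upwards [eventually_ge_atTop 1, h2] with n hn h3
    have hn0 : (0 : ℝ) < n := by exact_mod_cast hn
    have hlog : 0 ≤ Real.log (n : ℝ) := Real.log_natCast_nonneg n
    rw [hcard n, hsplit n, ← add_div, ← add_div, ← add_mul, ← add_one_mul]
    have g2 := hone n
    refine div_le_div_of_nonneg_right (mul_le_mul_of_nonneg_right ?_ (pow_nonneg hlog _)) hn0.le
    linarith

end Pool.Agent.Q290.CR
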